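import Pool.Agent.H458.AR.Fld

/-!
# Project AR (helper458), part SUN (helper335): S-units modulo squares
-/

set_option autoImplicit false

open IsDedekindDomain NumberField

namespace Pool.Agent.H335.AR458

open Pool.Agent.H458.AR
open Pool.Agent.N874.PP (Ev)

namespace SUN

theorem val_even (x y : ZMod 2) : Even (x.val + y.val + (x + y).val) := by
  revert x y
  decide

variable {L O : Type} [Field L] [NumberField L] [CommRing O] [IsDedekindDomain O]
  [Algebra O L] [IsFractionRing O L]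

/-- additive valuation -/
noncomputable def nv (P : HeightOneSpectrum O) (x : Lˣ) : ℤ :=
  Multiplicative.toAdd (P.valuationOfNeZero x)

theorem nv_mul (P : HeightOneSpectrum O) (x y : Lˣ) : nv P (x * y) = nv P x + nv P y := by
  unfold nv
  rw [map_mul, toAdd_mul]

theorem nv_one (P : HeightOneSpectrum O) : nv P (1 : Lˣ) = 0 := by
  unfold nv
  rw [map_one, toAdd_one]

theorem nv_zpow (P : HeightOneSpectrum O) (x : Lˣ) (n : ℤ) : nv P (x ^ n) = n * nv P x := by
  unfold nv
  rw [map_zpow, toAdd_zpow, smul_eq_mul]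

theorem nv_pow (P : HeightOneSpectrum O) (x : Lˣ) (n : ℕ) : nv P (x ^ n) = n * nv P x := by
  rw [← zpow_natCast, nv_zpow]

theorem nv_prod {ι : Type} (s : Finset ι) (P : HeightOneSpectrum O) (x : ι → Lˣ) :
    nv P (∏ j ∈ s, x j) = ∑ j ∈ s, nv P (x j) := by
  classical
  induction s using Finset.induction_on with
  | empty => rw [Finset.prod_empty, Finset.sum_empty, nv_one]
  | insert a s ha ih => rw [Finset.prod_insert ha, Finset.sum_insert ha, nv_mul, ih]

theorem nv_eq_zero (P : HeightOneSpectrum O) (x : Lˣ) :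
    nv P x = 0 ↔ P.valuation L (x : L) = 1 := by
  rw [← HeightOneSpectrum.valuationOfNeZero_eq, ← WithZero.coe_one, WithZero.coe_inj]
  unfold nv
  exact toAdd_eq_zero

section integral

variable [IsIntegralClosure O ℤ L]

theorem val_le (P : HeightOneSpectrum O) {x : L} (hx : IsIntegral ℤ x) : P.valuation L x ≤ 1 := by
  obtain ⟨r, rfl⟩ := (IsIntegralClosure.isIntegral_iff (A := O)).1 hx
  exact P.valuation_le_one r

theorem nv_unit (P : HeightOneSpectrum O) (u : (𝓞 L)ˣ) :
    nv P (Units.map (algebraMap (𝓞 L) L : (𝓞 L) →* L) u) = 0 := by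
  rw [nv_eq_zero]
  have h1 : P.valuation L ((Units.map (algebraMap (𝓞 L) L : (𝓞 L) →* L) u : Lˣ) : L) ≤ 1 :=
    val_le P (RingOfIntegers.isIntegral_coe (u : 𝓞 L))
  have h2 : P.valuation L ((Units.map (algebraMap (𝓞 L) L : (𝓞 L) →* L) u⁻¹ : Lˣ) : L) ≤ 1 :=
    val_le P (RingOfIntegers.isIntegral_coe ((u⁻¹ : (𝓞 L)ˣ) : 𝓞 L))
  apply le_antisymm h1
  rw [map_inv, Units.val_inv_eq_inv_val, map_inv₀] at h2
  have h3 : (0 : WithZero (Multiplicative ℤ)) <
      P.valuation L ((Units.map (algebraMap (𝓞 L) L : (𝓞 L) →* L) u : Lˣ) : L) := by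
    rw [zero_lt_iff, Valuation.ne_zero_iff]
    exact Units.ne_zero _
  exact (inv_le_one₀ h3).1 h2

theorem exists_unit (y : Lˣ) (hy : ∀ P : HeightOneSpectrum O, nv P y = 0) :
    ∃ u : (𝓞 L)ˣ, Units.map (algebraMap (𝓞 L) L : (𝓞 L) →* L) u = y := by
  have h1 : IsIntegral ℤ (y : L) := by
    obtain ⟨r, hr⟩ := HeightOneSpectrum.mem_integers_of_valuation_le_one (R := O) L (y : L)
      (fun P => ((nv_eq_zero P y).1 (hy P)).le)
    rw [← hr]
    exact (IsIntegralClosure.isIntegral_iff (A := O)).2 ⟨r, rfl⟩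
  have h2 : IsIntegral ℤ ((y⁻¹ : Lˣ) : L) := by
    obtain ⟨r, hr⟩ := HeightOneSpectrum.mem_integers_of_valuation_le_one (R := O) L
      ((y⁻¹ : Lˣ) : L) (fun P => by
        rw [Units.val_inv_eq_inv_val, map_inv₀, (nv_eq_zero P y).1 (hy P), inv_one])
    rw [← hr]
    exact (IsIntegralClosure.isIntegral_iff (A := O)).2 ⟨r, rfl⟩
  refine ⟨⟨⟨(y : L), h1⟩, ⟨((y⁻¹ : Lˣ) : L), h2⟩, ?_, ?_⟩, ?_⟩
  · apply RingOfIntegers.ext
    show (y : L) * ((y⁻¹ : Lˣ) : L) = 1
    exact Units.mul_inv y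
  · apply RingOfIntegers.ext
    show ((y⁻¹ : Lˣ) : L) * (y : L) = 1
    exact Units.inv_mul y
  · apply Units.ext
    rfl

/-- for every prime there is an element with this prime only -/
theorem exists_gen (P : HeightOneSpectrum O) :
    ∃ x : Lˣ, nv P x ≠ 0 ∧ ∀ Q : HeightOneSpectrum O, Q ≠ P → nv Q x = 0 := by
  classical
  let _ : Fintype (ClassGroup O) :=
    ClassGroup.fintypeOfAdmissibleOfFinite ℚ L AbsoluteValue.absIsAdmissible
  have hP0 : P.asIdeal ∈ nonZeroDivisors (Ideal O) := mem_nonZeroDivisors_of_ne_zero P.ne_bot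
  set I0 : nonZeroDivisors (Ideal O) := ⟨P.asIdeal, hP0⟩ with hI0
  set n := Fintype.card (ClassGroup O) with hn
  have hn0 : n ≠ 0 := Fintype.card_ne_zero
  have h1 : ClassGroup.mk0 (I0 ^ n) = 1 := by
    rw [map_pow, hn, pow_card_eq_one]
  rw [ClassGroup.mk0_eq_one_iff] at h1
  obtain ⟨a, ha⟩ := h1.principal
  have ha' : P.asIdeal ^ n = Ideal.span {a} := ha
  have ha0 : a ≠ 0 := by
    rintro rfl
    rw [Ideal.span_singleton_eq_bot.2 rfl] at ha'
    exact pow_ne_zero n P.ne_bot ha'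
  have haL : algebraMap O L a ≠ 0 := by
    rw [Ne, IsFractionRing.to_map_eq_zero_iff]
    exact ha0
  refine ⟨Units.mk0 _ haL, ?_, ?_⟩
  · rw [Ne, nv_eq_zero, Units.val_mk0, HeightOneSpectrum.valuation_eq_one_iff_notMem, not_not]
    have h2 : a ∈ P.asIdeal ^ n := by
      rw [ha']
      exact Ideal.mem_span_singleton_self a
    exact Ideal.pow_le_self hn0 h2
  · intro Q hQ
    rw [nv_eq_zero, Units.val_mk0, HeightOneSpectrum.valuation_eq_one_iff_notMem]
    intro h2
    apply hQ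
    have h3 : P.asIdeal ^ n ≤ Q.asIdeal := by
      rw [ha', Ideal.span_singleton_le_iff_mem]
      exact h2
    have h4 : P.asIdeal ≤ Q.asIdeal := Q.isPrime.le_of_pow_le h3
    exact (HeightOneSpectrum.ext (P.isMaximal.eq_of_le Q.isPrime.ne_top h4)).symm

end integral

section lattice

variable {ι : Type} (q : ι → HeightOneSpectrum O)

/-- S-units -/
def AU (x : Lˣ) : Prop := ∀ P : HeightOneSpectrum O, (∀ i, P ≠ q i) → nv P x = 0

/-- the lattice of the valuations of the S-units -/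
def Lam (L : Type) [Field L] [NumberField L] [Algebra O L] [IsFractionRing O L] :
    Submodule ℤ (ι → ℤ) where
  carrier := {v | ∃ x : Lˣ, AU q x ∧ ∀ i, nv (q i) x = v i}
  zero_mem' := ⟨1, fun P _ => nv_one P, fun i => nv_one (q i)⟩
  add_mem' := by
    rintro v w ⟨x, hx, hxv⟩ ⟨y, hy, hyw⟩
    refine ⟨x * y, fun P hP => ?_, fun i => ?_⟩
    · rw [nv_mul, hx P hP, hy P hP, add_zero]
    · rw [nv_mul, hxv, hyw, Pi.add_apply]
  smul_mem' := by
    rintro n v ⟨x, hx, hxv⟩
    refine ⟨x ^ n, fun P hP => ?_, fun i => ?_⟩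
    · rw [nv_zpow, hx P hP, mul_zero]
    · rw [nv_zpow, hxv, Pi.smul_apply, smul_eq_mul]

theorem finrank_Lam [IsIntegralClosure O ℤ L] [Fintype ι] (hq : Function.Injective q) :
    Module.finrank ℤ (Lam q L) = Fintype.card ι := by
  classical
  apply le_antisymm
  · refine (Submodule.finrank_le _).trans ?_
    rw [Module.finrank_fintype_fun_eq_card]
  · choose x hx1 hx2 using fun i => exists_gen (L := L) (q i)
    let y : ι → Lam q L := fun i => ⟨fun j => nv (q j) (x i), x i,
      fun P hP => hx2 i P (hP i), fun _ => rfl⟩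
    have hy : LinearIndependent ℤ y := by
      rw [Fintype.linearIndependent_iff]
      intro g hg i
      have h1 := congrArg (fun v : Lam q L => (v : ι → ℤ) i) hg
      simp only [Submodule.coe_sum, Finset.sum_apply, Submodule.coe_smul, Pi.smul_apply,
        smul_eq_mul, Submodule.coe_zero, Pi.zero_apply] at h1
      rw [Finset.sum_eq_single_of_mem i (Finset.mem_univ i)] at h1
      · rcases mul_eq_zero.1 h1 with h2 | h2
        · exact h2
        · exact absurd h2 (hx1 i)
      · intro j _ hj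
        have h3 : nv (q i) (x j) = 0 := hx2 j (q i) (fun h => hj (hq h).symm)
        show g j * nv (q i) (x j) = 0
        rw [h3, mul_zero]
    exact hy.fintype_card_le_finrank

end lattice

/-- a torsion unit which is not the square of a torsion unit -/
theorem exists_tor : ∃ t : Units.torsion L, ∀ z : Units.torsion L, z * z ≠ t := by
  by_contra h
  push Not at h
  have hs : Function.Surjective fun z : Units.torsion L => z * z := fun t => h t
  have hi := Finite.injective_iff_surjective.2 hs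
  have hm : (-1 : (𝓞 L)ˣ) ∈ Units.torsion L := neg_one_mem_torsion
  have h1 : (⟨-1, hm⟩ : Units.torsion L) = 1 := by
    apply hi
    apply Subtype.ext
    show (-1 : (𝓞 L)ˣ) * (-1) = 1 * 1
    rw [neg_mul_neg]
  have h2 : (-1 : (𝓞 L)ˣ) = 1 := congrArg Subtype.val h1
  have h3 : ((-1 : (𝓞 L)ˣ) : 𝓞 L) = 1 := by rw [h2, Units.val_one]
  rw [Units.val_neg, Units.val_one] at h3
  have h4 : (1 : 𝓞 L) + 1 = 0 := by
    nth_rewrite 1 [← h3]
    exact neg_add_cancel 1
  have h5 : (2 : 𝓞 L) ≠ 0 := two_ne_zero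
  apply h5
  rw [← h4]
  norm_num

/-- units which are squares -/
theorem unit_sq (i₀ : Fin (Units.rank L)) (t : Units.torsion L) (ht : ∀ z : Units.torsion L, z * z ≠ t)
    (c₀ c₁ : ZMod 2) (w : (𝓞 L)ˣ)
    (h : (t : (𝓞 L)ˣ) ^ c₀.val * Units.fundSystem L i₀ ^ c₁.val = w * w) : c₀ = 0 ∧ c₁ = 0 := by
  classical
  obtain ⟨⟨ζ, e⟩, hw, -⟩ := Units.exist_unique_eq_mul_prod L w
  have h1 : w * w = ((ζ * ζ : Units.torsion L) : (𝓞 L)ˣ) *
      ∏ i, (Units.fundSystem L i ^ ((fun i => e i + e i : Fin (Units.rank L) → ℤ) i)) := by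
    have h2 : ∏ i, (Units.fundSystem L i ^ (e i + e i)) =
        (∏ i, (Units.fundSystem L i ^ (e i))) * ∏ i, (Units.fundSystem L i ^ (e i)) := by
      rw [← Finset.prod_mul_distrib]
      exact Finset.prod_congr rfl fun i _ => zpow_add _ _ _
    show w * w = ((ζ * ζ : Units.torsion L) : (𝓞 L)ˣ) * ∏ i, (Units.fundSystem L i ^ (e i + e i))
    rw [h2, hw]
    show (ζ : (𝓞 L)ˣ) * _ * ((ζ : (𝓞 L)ˣ) * _) = (ζ : (𝓞 L)ˣ) * (ζ : (𝓞 L)ˣ) * _
    exact mul_mul_mul_comm _ _ _ _
  have h3 : w * w = ((t ^ c₀.val : Units.torsion L) : (𝓞 L)ˣ) *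
      ∏ i, (Units.fundSystem L i ^
        ((fun i => if i = i₀ then (c₁.val : ℤ) else 0 : Fin (Units.rank L) → ℤ) i)) := by
    rw [← h]
    congr 1
    rw [Finset.prod_eq_single_of_mem i₀ (Finset.mem_univ i₀)]
    · show _ = Units.fundSystem L i₀ ^ (if i₀ = i₀ then (c₁.val : ℤ) else 0)
      rw [if_pos rfl, zpow_natCast]
    · intro i _ hi
      show Units.fundSystem L i ^ (if i = i₀ then (c₁.val : ℤ) else 0) = 1
      rw [if_neg hi, zpow_zero]
  have hu := (Units.exist_unique_eq_mul_prod L (w * w)).unique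
    (y₁ := (ζ * ζ, fun i => e i + e i)) (y₂ := (t ^ c₀.val, fun i => if i = i₀ then (c₁.val : ℤ) else 0))
    h1 h3
  have hu1 : ζ * ζ = t ^ c₀.val := congrArg Prod.fst hu
  have hu2 : e i₀ + e i₀ = (c₁.val : ℤ) := by
    have h4 := congrFun (congrArg Prod.snd hu) i₀
    have h5 : (if i₀ = i₀ then (c₁.val : ℤ) else 0) = (c₁.val : ℤ) := if_pos rfl
    exact h4.trans h5
  have hc₀ : c₀.val < 2 := ZMod.val_lt c₀
  have hc₁ : c₁.val < 2 := ZMod.val_lt c₁
  constructor
  · rw [← ZMod.val_eq_zero]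
    by_contra h5
    have h6 : c₀.val = 1 := by omega
    rw [h6, pow_one] at hu1
    exact ht ζ hu1
  · rw [← ZMod.val_eq_zero]
    omega

end SUN

open SUN in
theorem sun : S_SUN := by
  classical
  intro L O _ _ _ _ _ _ _ hpl ι _ q hq
  have hrk : 0 < Units.rank L := by
    unfold Units.rank
    omega
  obtain ⟨t, ht⟩ := exists_tor (L := L)
  set i₀ : Fin (Units.rank L) := ⟨0, hrk⟩ with hi₀
  set T : Lˣ := Units.map (algebraMap (𝓞 L) L : (𝓞 L) →* L) (t : (𝓞 L)ˣ) with hT
  set E : Lˣ := Units.map (algebraMap (𝓞 L) L : (𝓞 L) →* L) (Units.fundSystem L i₀) with hE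
  have hfr := finrank_Lam (L := L) q hq
  let b : Module.Basis ι ℤ (Lam q L) :=
    (Module.finBasisOfFinrankEq ℤ (Lam q L) hfr).reindex (Fintype.equivFin ι).symm
  choose a ha1 ha2 using fun j => (b j).2
  set g : (Fin 2 → ZMod 2) × (ι → ZMod 2) → Lˣ := fun c =>
    T ^ (c.1 0).val * E ^ (c.1 1).val * ∏ j, a j ^ (c.2 j).val with hg
  have hgout : ∀ c, ∀ P : HeightOneSpectrum O, (∀ i, P ≠ q i) → nv P (g c) = 0 := by
    intro c P hP
    rw [hg]
    simp only
    rw [nv_mul, nv_mul, nv_pow, nv_pow, nv_prod, hT, hE, nv_unit, nv_unit, mul_zero, mul_zero,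
      zero_add, zero_add]
    refine Finset.sum_eq_zero fun j _ => ?_
    rw [nv_pow, ha1 j P hP, mul_zero]
  have hgin : ∀ c i, nv (q i) (g c) = ∑ j, ((c.2 j).val : ℤ) * (b j : ι → ℤ) i := by
    intro c i
    rw [hg]
    simp only
    rw [nv_mul, nv_mul, nv_pow, nv_pow, nv_prod, hT, hE, nv_unit, nv_unit, mul_zero, mul_zero,
      zero_add, zero_add]
    refine Finset.sum_congr rfl fun j _ => ?_
    rw [nv_pow, ha2 j i]
  refine ⟨fun c => (g c : L), fun c => Units.ne_zero _, ?_, ?_, ?_⟩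
  · intro c P hP
    refine ⟨1, ?_⟩
    rw [(nv_eq_zero P (g c)).1 (hgout c P hP), map_one, one_pow]
  · intro c c'
    have hp : ∀ (x : Lˣ) (u v : ZMod 2), ∃ y : Lˣ, x ^ u.val * x ^ v.val * x ^ (u + v).val = y * y := by
      intro x u v
      obtain ⟨m, hm⟩ := val_even u v
      refine ⟨x ^ m, ?_⟩
      rw [← pow_add, ← pow_add, ← pow_add, hm]
    obtain ⟨y1, hy1⟩ := hp T (c.1 0) (c'.1 0)
    obtain ⟨y2, hy2⟩ := hp E (c.1 1) (c'.1 1)
    choose y3 hy3 using fun j => hp (a j) (c.2 j) (c'.2 j)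
    have hfin : g c * g c' * g (c + c') = (y1 * y2 * ∏ j, y3 j) * (y1 * y2 * ∏ j, y3 j) := by
      have h1 : (∏ j, a j ^ (c.2 j).val) * (∏ j, a j ^ (c'.2 j).val) *
          (∏ j, a j ^ (c.2 j + c'.2 j).val) = (∏ j, y3 j) * ∏ j, y3 j := by
        rw [← Finset.prod_mul_distrib, ← Finset.prod_mul_distrib, ← Finset.prod_mul_distrib]
        exact Finset.prod_congr rfl fun j _ => hy3 j
      show (T ^ (c.1 0).val * E ^ (c.1 1).val * ∏ j, a j ^ (c.2 j).val) *
        (T ^ (c'.1 0).val * E ^ (c'.1 1).val * ∏ j, a j ^ (c'.2 j).val) *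
        (T ^ (c.1 0 + c'.1 0).val * E ^ (c.1 1 + c'.1 1).val * ∏ j, a j ^ (c.2 j + c'.2 j).val) = _
      calc _ = (T ^ (c.1 0).val * T ^ (c'.1 0).val * T ^ (c.1 0 + c'.1 0).val) *
            (E ^ (c.1 1).val * E ^ (c'.1 1).val * E ^ (c.1 1 + c'.1 1).val) *
            ((∏ j, a j ^ (c.2 j).val) * (∏ j, a j ^ (c'.2 j).val) *
          (∏ j, a j ^ (c.2 j + c'.2 j).val)) := by
            simp only [mul_assoc, mul_left_comm]
        _ = _ := by
            rw [hy1, hy2, h1]
            simp only [mul_comm, mul_left_comm]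
    refine ⟨((y1 * y2 * ∏ j, y3 j : Lˣ) : L), ?_⟩
    rw [← Units.val_mul, ← Units.val_mul, ← Units.val_mul, hfin]
  · intro c hc
    obtain ⟨y, hy⟩ := hc
    have hy0 : y ≠ 0 := by
      rintro rfl
      rw [mul_zero] at hy
      exact Units.ne_zero _ hy
    set Y : Lˣ := Units.mk0 y hy0 with hY
    have hgY : g c = Y * Y := Units.ext hy
    have hYout : AU q Y := by
      intro P hP
      have h1 := hgout c P hP
      rw [hgY, nv_mul] at h1
      omega
    let vY : Lam q L := ⟨fun i => nv (q i) Y, Y, hYout, fun _ => rfl⟩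
    have h2 : vY + vY = ∑ j, ((c.2 j).val : ℤ) • b j := by
      apply Subtype.ext
      funext i
      have h3 := hgin c i
      rw [hgY, nv_mul] at h3
      simp only [Submodule.coe_add, Pi.add_apply, Submodule.coe_sum, Finset.sum_apply,
        Submodule.coe_smul, Pi.smul_apply, smul_eq_mul]
      exact h3
    have hc2 : ∀ j, c.2 j = 0 := by
      intro j
      have h3 := congrArg (fun v => b.repr v j) h2
      simp only [map_add, Finsupp.add_apply] at h3
      rw [b.repr_sum_self] at h3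
      have h4 : (c.2 j).val < 2 := ZMod.val_lt _
      rw [← ZMod.val_eq_zero]
      omega
    have hYin : ∀ i, nv (q i) Y = 0 := by
      intro i
      have h3 := hgin c i
      rw [hgY, nv_mul] at h3
      have h4 : ∑ j, ((c.2 j).val : ℤ) * (b j : ι → ℤ) i = 0 := by
        refine Finset.sum_eq_zero fun j _ => ?_
        rw [hc2 j, ZMod.val_zero, Nat.cast_zero, zero_mul]
      omega
    have hYall : ∀ P : HeightOneSpectrum O, nv P Y = 0 := by
      intro P
      by_cases hP : ∀ i, P ≠ q i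
      · exact hYout P hP
      · push Not at hP
        obtain ⟨i, rfl⟩ := hP
        exact hYin i
    obtain ⟨u, hu⟩ := exists_unit Y hYall
    have h5 : (t : (𝓞 L)ˣ) ^ (c.1 0).val * Units.fundSystem L i₀ ^ (c.1 1).val = u * u := by
      have hinj : Function.Injective (Units.map (algebraMap (𝓞 L) L : (𝓞 L) →* L)) :=
        Units.map_injective RingOfIntegers.coe_injective
      apply hinj
      rw [map_mul, map_pow, map_pow, map_mul, hu, ← hgY, ← hT, ← hE, hg]
      simp only
      have h6 : ∏ j, a j ^ (c.2 j).val = 1 := by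
        refine Finset.prod_eq_one fun j _ => ?_
        rw [hc2 j, ZMod.val_zero, pow_zero]
      rw [h6, mul_one]
    obtain ⟨h6, h7⟩ := unit_sq i₀ t ht _ _ u h5
    apply Prod.ext
    · funext i
      fin_cases i
      · exact h6
      · exact h7
    · funext j
      exact hc2 j

end Pool.Agent.H335.AR458
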